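import Pool.Agent.H18.CGR.Stmts

/-!
Row LIF of the board cgr.
-/

set_option autoImplicit false

noncomputable section

namespace Pool.CGR

private theorem lif_norm {m : ℕ} (f : E1 m) : HasSum (fun w => ‖f w‖) ‖f‖ := by
  have h := lp.hasSum_norm (p := 1) (by simp) f
  simpa using h

theorem lif_thm : LIFStmt := by
  intro m G _ _ _ g C hC hg
  have hsum : ∀ f : E1 m, Summable fun w => f w • g w := by
    intro f
    refine Summable.of_norm_bounded (g := fun w => C * ‖f w‖) ((lif_norm f).summable.mul_left C) ?_
    intro w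
    rw [norm_smul, mul_comm]
    exact mul_le_mul_of_nonneg_right (hg w) (norm_nonneg _)
  let L₀ : E1 m →ₗ[ℂ] G :=
    { toFun := fun f => ∑' w, f w • g w
      map_add' := by
        intro f f'
        rw [← (hsum f).tsum_add (hsum f')]
        refine tsum_congr fun w => ?_
        rw [lp.coeFn_add, Pi.add_apply, add_smul]
      map_smul' := by
        intro c f
        rw [RingHom.id_apply, ← (hsum f).tsum_const_smul c]
        refine tsum_congr fun w => ?_
        rw [lp.coeFn_smul, Pi.smul_apply, smul_assoc] }
  have hL₀ : ∀ f : E1 m, ‖L₀ f‖ ≤ C * ‖f‖ := by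
    intro f
    refine tsum_of_norm_bounded ((lif_norm f).mul_left C) ?_
    intro w
    rw [norm_smul, mul_comm]
    exact mul_le_mul_of_nonneg_right (hg w) (norm_nonneg _)
  refine ⟨L₀.mkContinuous C hL₀, ?_, L₀.mkContinuous_norm_le hC hL₀, ?_⟩
  · intro w
    rw [LinearMap.mkContinuous_apply]
    show ∑' v, (bb w : E1 m) v • g v = g w
    rw [tsum_eq_single w]
    · simp [bb]
    · intro v hv
      simp [bb, lp.coeFn_single, hv]
  · intro f
    exact (hsum f).hasSum

end Pool.CGR
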